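import Pool.Agent.Run7.h325.HRT.Stm

set_option autoImplicit false

namespace Pool.Agent.Run7.h890.HRT.BIN2

open Pool.Agent.Run7.h325.HRT Stirling Filter Topology

/-- Robbins' upper bound. -/
theorem sig_le (n : ℕ) (hn : 1 ≤ n) :
    stirlingSeq n ≤ Real.sqrt Real.pi * Real.exp (1 / (12 * (n : ℝ))) := by
  obtain ⟨k, rfl⟩ : ∃ k, n = k + 1 := ⟨n - 1, by omega⟩
  let u : ℕ → ℝ := fun k => Real.log (stirlingSeq (k + 1)) - 1 / (12 * ((k : ℝ) + 1))
  have hu : Monotone u := by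
    apply monotone_nat_of_le_succ
    intro k
    have h1 := log_stirlingSeq_sdiff_le (k + 1)
    simp only [u]
    push_cast at h1 ⊢
    have h2 : (1 : ℝ) / (12 * ((k : ℝ) + 1)) - 1 / (12 * ((k : ℝ) + 1 + 1)) =
        1 / (12 * ((k : ℝ) + 1) * ((k : ℝ) + 1 + 1)) := by
      have ha : (k : ℝ) + 1 ≠ 0 := by positivity
      have hb : (k : ℝ) + 1 + 1 ≠ 0 := by positivity
      field_simp
      ring
    linarith
  have hsp : (0 : ℝ) < Real.sqrt Real.pi := Real.sqrt_pos.mpr Real.pi_pos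
  have ht : Tendsto u atTop (𝓝 (Real.log (Real.sqrt Real.pi))) := by
    have h1 : Tendsto (fun k : ℕ => stirlingSeq (k + 1)) atTop (𝓝 (Real.sqrt Real.pi)) :=
      tendsto_stirlingSeq_sqrt_pi.comp (tendsto_add_atTop_nat 1)
    have h2 := (h1.log hsp.ne')
    have h3 : Tendsto (fun k : ℕ => (1 : ℝ) / (12 * ((k : ℝ) + 1))) atTop (𝓝 0) := by
      have h4 := (tendsto_one_div_add_atTop_nhds_zero_nat (𝕜 := ℝ)).mul_const (1 / 12 : ℝ)
      rw [zero_mul] at h4
      refine h4.congr (fun k => ?_)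
      rw [one_div_mul_one_div]
      ring_nf
    have h5 := h2.sub h3
    rw [sub_zero] at h5
    exact h5
  have hle := hu.ge_of_tendsto ht k
  simp only [u] at hle
  have hpos := stirlingSeq'_pos k
  have h5 : Real.log (stirlingSeq (k + 1)) ≤
      Real.log (Real.sqrt Real.pi * Real.exp (1 / (12 * (((k + 1 : ℕ) : ℝ))))) := by
    rw [Real.log_mul hsp.ne' (Real.exp_pos _).ne', Real.log_exp]
    push_cast
    linarith
  exact (Real.log_le_log_iff hpos (by positivity)).mp h5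

theorem sig_pos (n : ℕ) (hn : 1 ≤ n) : 0 < stirlingSeq n := by
  obtain ⟨k, rfl⟩ : ∃ k, n = k + 1 := ⟨n - 1, by omega⟩
  exact stirlingSeq'_pos k

theorem sig_anti (a c : ℕ) (ha : 1 ≤ a) (hac : a ≤ c) : stirlingSeq c ≤ stirlingSeq a := by
  obtain ⟨k, rfl⟩ : ∃ k, a = k + 1 := ⟨a - 1, by omega⟩
  obtain ⟨r, rfl⟩ : ∃ r, c = r + 1 := ⟨c - 1, by omega⟩
  exact stirlingSeq'_antitone (by omega : k ≤ r)

theorem fact_eq (n : ℕ) (hn : 1 ≤ n) :
    (n.factorial : ℝ) = stirlingSeq n * (Real.sqrt (2 * n) * ((n : ℝ) / Real.exp 1) ^ n) := by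
  unfold stirlingSeq
  have h1 : (0 : ℝ) < (n : ℝ) := by exact_mod_cast hn
  have h2 : Real.sqrt (2 * (n : ℝ)) * ((n : ℝ) / Real.exp 1) ^ n ≠ 0 := by positivity
  field_simp

/-- the base of the exponential part -/
noncomputable def ga (A : ℝ) (i j : ℕ) : ℝ :=
  ((i + j : ℕ) * A / i : ℝ) ^ i * ((i + j : ℕ) * (1 - A) / j : ℝ) ^ j

theorem b_eq (A : ℝ) (l i j : ℕ) (hl : 1 ≤ l) (hi : 1 ≤ i) (hj : 1 ≤ j) :
    b A (l * (i + j)) (l * i) * Real.sqrt l =
      stirlingSeq (l * (i + j)) / (stirlingSeq (l * i) * stirlingSeq (l * j)) *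
        Real.sqrt (((i + j : ℕ) : ℝ) / (2 * i * j)) * ga A i j ^ l := by
  have hli : 1 ≤ l * i := Nat.mul_pos hl hi
  have hlj : 1 ≤ l * j := Nat.mul_pos hl hj
  have hln : 1 ≤ l * (i + j) := Nat.mul_pos hl (by omega)
  have e1 : l * (i + j) - l * i = l * j := by
    rw [← Nat.mul_sub]; congr 1; omega
  have e2 : ((l * (i + j)).choose (l * i) : ℝ) =
      ((l * (i + j)).factorial : ℝ) / (((l * i).factorial : ℝ) * ((l * j).factorial : ℝ)) := by
    have : l * (i + j) = l * i + l * j := by ring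
    rw [this, Nat.cast_add_choose]
  unfold b
  rw [e1, e2, fact_eq _ hli, fact_eq _ hlj, fact_eq _ hln]
  have s1 := sig_pos _ hli
  have s2 := sig_pos _ hlj
  have s3 := sig_pos _ hln
  set S1 := stirlingSeq (l * i)
  set S2 := stirlingSeq (l * j)
  set S3 := stirlingSeq (l * (i + j))
  have lR : (0 : ℝ) < (l : ℝ) := by exact_mod_cast hl
  have iR : (0 : ℝ) < (i : ℝ) := by exact_mod_cast hi
  have jR : (0 : ℝ) < (j : ℝ) := by exact_mod_cast hj
  have sq : Real.sqrt (2 * ((l * (i + j) : ℕ) : ℝ)) * Real.sqrt l =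
      Real.sqrt (((i + j : ℕ) : ℝ) / (2 * i * j)) *
        (Real.sqrt (2 * ((l * i : ℕ) : ℝ)) * Real.sqrt (2 * ((l * j : ℕ) : ℝ))) := by
    rw [← Real.sqrt_mul (by positivity), ← Real.sqrt_mul (by positivity),
      ← Real.sqrt_mul (by positivity)]
    congr 1
    push_cast
    field_simp
  have ex : ((((l * (i + j) : ℕ) : ℝ) / Real.exp 1) ^ (l * (i + j))) * (A ^ (l * i) * (1 - A) ^ (l * j)) =
      ga A i j ^ l * (((((l * i : ℕ) : ℝ) / Real.exp 1) ^ (l * i)) * ((((l * j : ℕ) : ℝ) / Real.exp 1) ^ (l * j))) := by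
    unfold ga
    have p1 : l * (i + j) = i * l + j * l := by ring
    have p2 : l * i = i * l := by ring
    have p3 : l * j = j * l := by ring
    rw [p1, p2, p3, pow_add]
    simp only [pow_mul, ← mul_pow]
    congr 1
    push_cast
    have q1 : (((i : ℝ) * l + j * l) / Real.exp 1) = (((i : ℝ) + j) / i) * ((i : ℝ) * l / Real.exp 1) := by
      field_simp
    have q2 : (((i : ℝ) * l + j * l) / Real.exp 1) = (((i : ℝ) + j) / j) * ((j : ℝ) * l / Real.exp 1) := by
      field_simp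
    have q3 : (((i : ℝ) * l + j * l) / Real.exp 1) ^ i * (((i : ℝ) * l + j * l) / Real.exp 1) ^ j * (A ^ i * (1 - A) ^ j) =
      ((((i : ℝ) + j) / i) * ((i : ℝ) * l / Real.exp 1)) ^ i * ((((i : ℝ) + j) / j) * ((j : ℝ) * l / Real.exp 1)) ^ j * (A ^ i * (1 - A) ^ j) := by
      rw [← q1, ← q2]
    rw [q3]
    simp only [mul_pow, div_pow]
    ring
  have hd1 : Real.sqrt (2 * ((l * i : ℕ) : ℝ)) ≠ 0 := by positivity
  have hd2 : Real.sqrt (2 * ((l * j : ℕ) : ℝ)) ≠ 0 := by positivity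
  have hd3 : ((((l * i : ℕ) : ℝ) / Real.exp 1) ^ (l * i)) ≠ 0 := by positivity
  have hd4 : ((((l * j : ℕ) : ℝ) / Real.exp 1) ^ (l * j)) ≠ 0 := by positivity
  set P1 := Real.sqrt (2 * ((l * i : ℕ) : ℝ))
  set P2 := Real.sqrt (2 * ((l * j : ℕ) : ℝ))
  set P3 := Real.sqrt (2 * ((l * (i + j) : ℕ) : ℝ))
  set E1 := ((((l * i : ℕ) : ℝ) / Real.exp 1) ^ (l * i))
  set E2 := ((((l * j : ℕ) : ℝ) / Real.exp 1) ^ (l * j))
  set E3 := ((((l * (i + j) : ℕ) : ℝ) / Real.exp 1) ^ (l * (i + j)))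
  set Q := Real.sqrt (((i + j : ℕ) : ℝ) / (2 * i * j))
  set G := ga A i j ^ l
  calc S3 * (P3 * E3) / (S1 * (P1 * E1) * (S2 * (P2 * E2))) * A ^ (l * i) * (1 - A) ^ (l * j) * Real.sqrt l
      = S3 * (P3 * Real.sqrt l) * (E3 * (A ^ (l * i) * (1 - A) ^ (l * j))) / (S1 * S2 * (P1 * P2) * (E1 * E2)) := by
        field_simp
    _ = S3 * (Q * (P1 * P2)) * (G * (E1 * E2)) / (S1 * S2 * (P1 * P2) * (E1 * E2)) := by rw [sq, ex]
    _ = S3 / (S1 * S2) * Q * G := by
        field_simp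

theorem ga_le (A : ℝ) (i j : ℕ) (hA0 : 0 < A) (hA1 : A < 1) (hi : 1 ≤ i) (hj : 1 ≤ j) :
    ga A i j ≤ 1 := by
  have iR : (0 : ℝ) < (i : ℝ) := by exact_mod_cast hi
  have jR : (0 : ℝ) < (j : ℝ) := by exact_mod_cast hj
  unfold ga
  have hx : ∀ (x : ℝ) (n : ℕ), 0 ≤ x → x ^ n ≤ Real.exp ((x - 1) * n) := by
    intro x n hx
    have h1 : x ≤ Real.exp (x - 1) := by
      have := Real.add_one_le_exp (x - 1); linarith
    calc x ^ n ≤ (Real.exp (x - 1)) ^ n := pow_le_pow_left₀ hx h1 n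
      _ = Real.exp ((x - 1) * n) := by rw [← Real.exp_nat_mul]; ring_nf
  have h1 := hx ((i + j : ℕ) * A / i) i (by positivity)
  have h2 := hx ((i + j : ℕ) * (1 - A) / j) j (by
    have : 0 < 1 - A := by linarith
    positivity)
  calc _ ≤ Real.exp (((i + j : ℕ) * A / i - 1) * i) * Real.exp (((i + j : ℕ) * (1 - A) / j - 1) * j) := by
        apply mul_le_mul h1 h2 _ (Real.exp_pos _).le
        have : 0 < 1 - A := by linarith
        positivity
    _ = Real.exp 0 := by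
        rw [← Real.exp_add]
        congr 1
        push_cast
        field_simp
        ring
    _ = 1 := Real.exp_zero

theorem t_BIN2 (hA : S_APROP) : ∀ m q : ℕ, 1 ≤ m → 1 ≤ q →
    (∀ l : ℕ, 1 ≤ l → b (Am m) (l * Nq m q) (l * iq m q) * Real.sqrt l ≤
      1.01 * b (Am m) (Nq m q) (iq m q)) ∧
    1 / (4 * (Nq m q : ℝ)) ≤ b (Am m) (Nq m q) (iq m q) := by
  intro m q hm hq
  obtain ⟨hA0, hA1, hP⟩ := hA m hm
  obtain ⟨r1, r2, i5, i4, i1000, f4, n4⟩ := hP q
  have hi1 := i1000 hq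
  set A := Am m with hAdef
  set i := iq m q with hidef
  obtain ⟨j, hj⟩ : ∃ j, Nq m q = i + j := ⟨Nq m q - i, by omega⟩
  have hj3 : 3000 ≤ j := by omega
  have hNR : (Nq m q : ℝ) = ((i + j : ℕ) : ℝ) := by rw [hj]
  have iR : (1000 : ℝ) ≤ (i : ℝ) := by exact_mod_cast hi1
  have jR : (3000 : ℝ) ≤ (j : ℝ) := by exact_mod_cast hj3
  have hga1 := ga_le A i j hA0 (by linarith) (by omega) (by omega)
  -- lower bound of ga
  have hrN : 0 < rho m q := lt_trans (by positivity) r1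
  have hrho : rho m q * ((i + j : ℕ) : ℝ) ≤ 1 / 2 := by
    rw [← hNR]
    have h1 : (Nq m q : ℝ) = (5 : ℝ) ^ f m q := by unfold Nq; push_cast; rfl
    have h2 : 1 ≤ f m q := by unfold f; exact Nat.mul_pos hm (by positivity)
    have h3 : (5 : ℝ) ^ (f m q + 1) ≤ (5 : ℝ) ^ f m (q + 1) :=
      pow_le_pow_right₀ (by norm_num) (by omega)
    have h4 : ((5 : ℝ) ^ f m (q + 1))⁻¹ ≤ ((5 : ℝ) ^ (f m q + 1))⁻¹ :=
      inv_anti₀ (by positivity) h3
    calc rho m q * (Nq m q : ℝ) ≤ (5 / 4 * ((5 : ℝ) ^ f m (q + 1))⁻¹) * (5 : ℝ) ^ f m q := by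
          rw [h1]; gcongr
      _ ≤ (5 / 4 * ((5 : ℝ) ^ (f m q + 1))⁻¹) * (5 : ℝ) ^ f m q := by gcongr
      _ = 1 / 4 := by
          rw [pow_succ]
          field_simp
      _ ≤ 1 / 2 := by norm_num
  have hAe : A = (i : ℝ) / ((i + j : ℕ) : ℝ) + rho m q := by
    rw [← hNR]; unfold rho; ring
  have hga2 : 1 / 2 ≤ ga A i j := by
    have hNpos : (0 : ℝ) < ((i + j : ℕ) : ℝ) := by rw [← hNR]; unfold Nq; positivity
    have e1 : (((i + j : ℕ) : ℝ) * A / i) = 1 + rho m q * ((i + j : ℕ) : ℝ) / i := by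
      rw [hAe]
      have : (i : ℝ) ≠ 0 := by positivity
      field_simp
    have e2 : (((i + j : ℕ) : ℝ) * (1 - A) / j) = 1 + (- (rho m q * ((i + j : ℕ) : ℝ) / j)) := by
      rw [hAe]
      have hj0 : (j : ℝ) ≠ 0 := by positivity
      have : ((i + j : ℕ) : ℝ) = (i : ℝ) + j := by push_cast; ring
      rw [this] at hNpos ⊢
      field_simp
      ring
    unfold ga
    rw [e1, e2]
    have h1 : (1 : ℝ) ≤ (1 + rho m q * ((i + j : ℕ) : ℝ) / i) ^ i := by
      apply one_le_pow₀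
      have : 0 ≤ rho m q * ((i + j : ℕ) : ℝ) / i := by positivity
      linarith
    have h2 : 1 + (j : ℝ) * (- (rho m q * ((i + j : ℕ) : ℝ) / j)) ≤
        (1 + (- (rho m q * ((i + j : ℕ) : ℝ) / j))) ^ j := by
      apply one_add_mul_le_pow
      have : rho m q * ((i + j : ℕ) : ℝ) / j ≤ 1 := by
        rw [div_le_one (by positivity)]
        linarith
      linarith
    have h3 : (1 : ℝ) / 2 ≤ 1 + (j : ℝ) * (- (rho m q * ((i + j : ℕ) : ℝ) / j)) := by
      have hj0 : (j : ℝ) ≠ 0 := by positivity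
      have : (j : ℝ) * (- (rho m q * ((i + j : ℕ) : ℝ) / j)) = - (rho m q * ((i + j : ℕ) : ℝ)) := by
        field_simp
      rw [this]; linarith
    calc (1 : ℝ) / 2 = 1 * (1 / 2) := by ring
      _ ≤ _ := mul_le_mul h1 (le_trans h3 h2) (by norm_num) (by linarith)
  -- stirling values
  have hsp : (0 : ℝ) < Real.sqrt Real.pi := Real.sqrt_pos.mpr Real.pi_pos
  have hi := sig_le i (by omega)
  have hjj := sig_le j (by omega)
  have hip := sig_pos i (by omega)
  have hjp := sig_pos j (by omega)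
  have hNp := sig_pos (i + j) (by omega)
  have hprod : stirlingSeq i * stirlingSeq j ≤ 1.01 * Real.pi := by
    calc stirlingSeq i * stirlingSeq j
        ≤ (Real.sqrt Real.pi * Real.exp (1 / (12 * (i : ℝ)))) * (Real.sqrt Real.pi * Real.exp (1 / (12 * (j : ℝ)))) := by
          gcongr
      _ = (Real.sqrt Real.pi * Real.sqrt Real.pi) * Real.exp (1 / (12 * (i : ℝ)) + 1 / (12 * (j : ℝ))) := by
          rw [Real.exp_add]; ring
      _ = Real.pi * Real.exp (1 / (12 * (i : ℝ)) + 1 / (12 * (j : ℝ))) := by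
          rw [Real.mul_self_sqrt Real.pi_pos.le]
      _ ≤ Real.pi * 1.01 := by
          apply mul_le_mul_of_nonneg_left _ Real.pi_pos.le
          have h1 : 1 / (12 * (i : ℝ)) ≤ 1 / 1000 := by
            apply one_div_le_one_div_of_le (by norm_num); linarith
          have h2 : 1 / (12 * (j : ℝ)) ≤ 1 / 1000 := by
            apply one_div_le_one_div_of_le (by norm_num); linarith
          have h3 : Real.exp (1 / (12 * (i : ℝ)) + 1 / (12 * (j : ℝ))) ≤ Real.exp (2 / 1000) := by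
            apply Real.exp_le_exp.mpr; linarith
          refine le_trans h3 ?_
          have h4 := Real.exp_bound_div_one_sub_of_interval (x := 2 / 1000) (by norm_num) (by norm_num)
          refine le_trans h4 ?_
          norm_num
      _ = 1.01 * Real.pi := by ring
  have hQ0 : 0 ≤ Real.sqrt (((i + j : ℕ) : ℝ) / (2 * i * j)) := Real.sqrt_nonneg _
  have hb1 : b A (i + j) i = stirlingSeq (i + j) / (stirlingSeq i * stirlingSeq j) *
        Real.sqrt (((i + j : ℕ) : ℝ) / (2 * i * j)) * ga A i j := by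
    have := b_eq A 1 i j le_rfl (by omega) (by omega)
    simpa using this
  have hga0 : 0 < ga A i j := lt_of_lt_of_le (by norm_num) hga2
  rw [hj]
  constructor
  · intro l hl
    rw [b_eq A l i j hl (by omega) (by omega), hb1]
    have hli : 1 ≤ l * i := Nat.mul_pos hl (by omega)
    have hlj : 1 ≤ l * j := Nat.mul_pos hl (by omega)
    have h1 : stirlingSeq (l * (i + j)) ≤ stirlingSeq (i + j) :=
      sig_anti _ _ (by omega) (Nat.le_mul_of_pos_left _ hl)
    have h2 : Real.sqrt Real.pi ≤ stirlingSeq (l * i) := sqrt_pi_le_stirlingSeq (by omega)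
    have h3 : Real.sqrt Real.pi ≤ stirlingSeq (l * j) := sqrt_pi_le_stirlingSeq (by omega)
    have h4 : Real.pi ≤ stirlingSeq (l * i) * stirlingSeq (l * j) := by
      calc Real.pi = Real.sqrt Real.pi * Real.sqrt Real.pi := (Real.mul_self_sqrt Real.pi_pos.le).symm
        _ ≤ _ := mul_le_mul h2 h3 hsp.le (le_trans hsp.le h2)
    have h5 : ga A i j ^ l ≤ ga A i j := by
      calc ga A i j ^ l ≤ ga A i j ^ 1 := pow_le_pow_of_le_one hga0.le hga1 hl
        _ = _ := pow_one _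
    have h6 : stirlingSeq (l * (i + j)) / (stirlingSeq (l * i) * stirlingSeq (l * j)) ≤
        1.01 * (stirlingSeq (i + j) / (stirlingSeq i * stirlingSeq j)) := by
      calc stirlingSeq (l * (i + j)) / (stirlingSeq (l * i) * stirlingSeq (l * j))
          ≤ stirlingSeq (i + j) / Real.pi := by
            have := Real.pi_pos
            gcongr
        _ = 1.01 * (stirlingSeq (i + j) / (1.01 * Real.pi)) := by
            have := Real.pi_pos
            field_simp
        _ ≤ 1.01 * (stirlingSeq (i + j) / (stirlingSeq i * stirlingSeq j)) := by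
            gcongr
    have h7 : 0 ≤ stirlingSeq (l * (i + j)) / (stirlingSeq (l * i) * stirlingSeq (l * j)) := by
      have a1 := sig_pos _ hli
      have a2 := sig_pos _ hlj
      have a3 := sig_pos (l * (i + j)) (Nat.mul_pos hl (by omega))
      positivity
    calc stirlingSeq (l * (i + j)) / (stirlingSeq (l * i) * stirlingSeq (l * j)) *
          Real.sqrt (((i + j : ℕ) : ℝ) / (2 * i * j)) * ga A i j ^ l
        ≤ (1.01 * (stirlingSeq (i + j) / (stirlingSeq i * stirlingSeq j))) *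
          Real.sqrt (((i + j : ℕ) : ℝ) / (2 * i * j)) * ga A i j := by
          gcongr
      _ = _ := by ring
  · rw [hb1]
    have hsi : stirlingSeq i * stirlingSeq j ≤ 4 := by
      have := Real.pi_lt_d2
      linarith
    have hsN : (1.7 : ℝ) ≤ stirlingSeq (i + j) := by
      have h1 : Real.sqrt Real.pi ≤ stirlingSeq (i + j) := sqrt_pi_le_stirlingSeq (by omega)
      have h2 : (1.7 : ℝ) ≤ Real.sqrt Real.pi := by
        apply Real.le_sqrt_of_sq_le
        have := Real.pi_gt_d2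
        norm_num
        linarith
      linarith
    have h1 : (1.7 : ℝ) / 4 ≤ stirlingSeq (i + j) / (stirlingSeq i * stirlingSeq j) := by
      gcongr
    have hN0 : (1 : ℝ) ≤ ((i + j : ℕ) : ℝ) := by
      have : 1 ≤ i + j := by omega
      exact_mod_cast this
    have h2 : (1.4 : ℝ) / ((i + j : ℕ) : ℝ) ≤ Real.sqrt (((i + j : ℕ) : ℝ) / (2 * i * j)) := by
      apply Real.le_sqrt_of_sq_le
      rw [div_pow, div_le_div_iff₀ (by positivity) (by positivity)]
      have hN : ((i + j : ℕ) : ℝ) = (i : ℝ) + j := by push_cast; ring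
      rw [hN] at hN0 ⊢
      have h3 : 4 * ((i : ℝ) * j) ≤ ((i : ℝ) + j) ^ 2 := by nlinarith [sq_nonneg ((i : ℝ) - j)]
      have h4 : ((i : ℝ) + j) ^ 2 ≤ ((i : ℝ) + j) ^ 2 * ((i : ℝ) + j) := by
        have : 0 ≤ ((i : ℝ) + j) ^ 2 := by positivity
        nlinarith
      nlinarith
    have hQ : 0 ≤ (1.4 : ℝ) / ((i + j : ℕ) : ℝ) := by positivity
    calc 1 / (4 * ((i + j : ℕ) : ℝ)) ≤ (1.7 / 4) * (1.4 / ((i + j : ℕ) : ℝ)) * (1 / 2) := by
          rw [div_le_iff₀ (by positivity)]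
          have : (1.7 : ℝ) / 4 * (1.4 / ((i + j : ℕ) : ℝ)) * (1 / 2) * (4 * ((i + j : ℕ) : ℝ)) = 1.7 * 1.4 / 2 := by
            field_simp
          rw [this]
          norm_num
      _ ≤ _ := by
          gcongr

end Pool.Agent.Run7.h890.HRT.BIN2
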