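import Pool.Agent.Run7.h325.HRT.Stm

set_option autoImplicit false

namespace Pool.Agent.Run7.h890.HRT.DIO

open Pool.Agent.Run7.h325.HRT

theorem D_lt : D < 1.4143 := by
  unfold D
  rw [show (1.4143 : ℝ) = Real.sqrt (1.4143 ^ 2) by
    rw [Real.sqrt_sq (by norm_num)]]
  exact Real.sqrt_lt_sqrt (by norm_num) (by norm_num)

theorem D_pos : 0 < D := by
  unfold D; positivity

theorem ex_q (m : ℕ) (hm : 1 ≤ m) (N : ℕ) :
    ∃ q : ℕ, 50 * N ^ 2 * (Nq m q) ^ 2 ≤ 5 ^ f m (q + 1) := by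
  refine ⟨N + 3, ?_⟩
  have h1 : N < 5 ^ N := Nat.lt_pow_self (by norm_num)
  have h2 : N ^ 2 ≤ (5 ^ N) ^ 2 := Nat.pow_le_pow_left h1.le 2
  have h3 : f m (N + 3 + 1) = 1024 * f m (N + 3) := by
    unfold f; rw [pow_succ]; ring
  have h4 : N + 3 < f m (N + 3) := by
    unfold f
    have h5 : N + 3 < 1024 ^ (N + 3) := Nat.lt_pow_self (by norm_num)
    calc N + 3 < 1024 ^ (N + 3) := h5
      _ = 1 * 1024 ^ (N + 3) := by ring
      _ ≤ m * 1024 ^ (N + 3) := Nat.mul_le_mul_right _ hm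
  rw [h3]
  unfold Nq
  calc 50 * N ^ 2 * (5 ^ f m (N + 3)) ^ 2
      ≤ 5 ^ 3 * (5 ^ N) ^ 2 * (5 ^ f m (N + 3)) ^ 2 := by
        gcongr
        norm_num
    _ = 5 ^ (3 + 2 * N + 2 * f m (N + 3)) := by
        rw [← pow_mul, ← pow_mul, ← pow_add, ← pow_add]
        congr 1; ring
    _ ≤ 5 ^ (1024 * f m (N + 3)) := Nat.pow_le_pow_right (by norm_num) (by omega)

theorem t_DIO (h0 : S_DIO0) (hA : S_APROP) : S_DIO := by
  intro m hm
  obtain ⟨hA0, hA1, hq⟩ := hA m hm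
  set C : ℝ := max 2500 ((5 : ℝ) ^ f m 0) with hC
  have hC1 : (2500 : ℝ) ≤ C := le_max_left _ _
  have hC2 : (5 : ℝ) ^ f m 0 ≤ C := le_max_right _ _
  have hCpos : 0 < C := by linarith
  refine ⟨1 / (10 * C ^ 2), by positivity, ?_⟩
  intro N i hN hi
  have hNR : (1 : ℝ) ≤ (N : ℝ) := by exact_mod_cast hN
  classical
  have hex := ex_q m hm N
  set q := Nat.find hex with hqdef
  have hqs : 50 * N ^ 2 * (Nq m q) ^ 2 ≤ 5 ^ f m (q + 1) := Nat.find_spec hex
  have hqm : ∀ r, r < q → 5 ^ f m (r + 1) < 50 * N ^ 2 * (Nq m r) ^ 2 := fun r hr =>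
    not_le.mp (Nat.find_min hex hr)
  obtain ⟨r1, r2, i5, i4, _, f4, _⟩ := hq q
  have hNqpos : 0 < Nq m q := by unfold Nq; positivity
  have hNqR : (1 : ℝ) ≤ (Nq m q : ℝ) := by exact_mod_cast hNqpos
  -- the integer h
  by_cases hh : (i : ℤ) * (Nq m q : ℤ) - (N : ℤ) * (iq m q : ℤ) = 0
  · left
    have e1 : i * Nq m q = N * iq m q := by
      have : (i : ℤ) * (Nq m q : ℤ) = (N : ℤ) * (iq m q : ℤ) := by linarith
      exact_mod_cast this
    have hcop : Nat.Coprime (Nq m q) (iq m q) := by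
      unfold Nq
      apply Nat.Coprime.pow_left
      rw [Nat.Prime.coprime_iff_not_dvd (by norm_num)]
      intro hd
      have := Nat.mod_eq_zero_of_dvd hd
      omega
    have hdvd : Nq m q ∣ N := by
      have : Nq m q ∣ N * iq m q := ⟨i, by rw [← e1]; ring⟩
      exact hcop.dvd_of_dvd_mul_right this
    obtain ⟨l, hl⟩ := hdvd
    refine ⟨q, l, by rw [hl]; ring, ?_, ?_⟩
    · have : i * Nq m q = (l * iq m q) * Nq m q := by rw [e1, hl]; ring
      exact Nat.eq_of_mul_eq_mul_right hNqpos this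
    · calc 50 * l ^ 2 * Nq m q ^ 4 = 50 * N ^ 2 * (Nq m q) ^ 2 := by rw [hl]; ring
        _ ≤ _ := hqs
  · right
    intro p
    set h : ℤ := (i : ℤ) * (Nq m q : ℤ) - (N : ℤ) * (iq m q : ℤ) with hhdef
    have hhR : (h : ℝ) = (i : ℝ) * (Nq m q : ℝ) - (N : ℝ) * (iq m q : ℝ) := by
      rw [hhdef]; push_cast; ring
    have habs1 : |(h : ℝ)| ≤ (N : ℝ) * (Nq m q : ℝ) := by
      rw [hhR, abs_le]
      have hiR : (i : ℝ) ≤ (N : ℝ) := by exact_mod_cast hi
      have hiq : (iq m q : ℝ) ≤ (Nq m q : ℝ) := by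
        have : iq m q ≤ Nq m q := by omega
        exact_mod_cast this
      have hi0 : (0 : ℝ) ≤ (i : ℝ) := Nat.cast_nonneg _
      have hiq0 : (0 : ℝ) ≤ (iq m q : ℝ) := Nat.cast_nonneg _
      constructor
      · nlinarith [mul_nonneg hi0 (le_trans zero_le_one hNqR), mul_le_mul_of_nonneg_left hiq (le_trans zero_le_one hNR)]
      · nlinarith [mul_nonneg (le_trans zero_le_one hNR) hiq0, mul_le_mul_of_nonneg_right hiR (le_trans zero_le_one hNqR)]
    have habs0 : 0 < |(h : ℝ)| := by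
      rw [abs_pos]; exact_mod_cast hh
    have hd := h0 h (p * (Nq m q : ℤ)) hh
    have key : (Nq m q : ℝ) * (th (Am m) N i - p) =
        (D * h - ((p * (Nq m q : ℤ) : ℤ) : ℝ)) - D * N * (Nq m q) * rho m q := by
      rw [hhR]
      unfold th rho
      have : (Nq m q : ℝ) ≠ 0 := by positivity
      push_cast
      field_simp
      ring
    have hrho0 : 0 < rho m q := lt_trans (by positivity) r1
    have e2 : 1 / (5 * |(h : ℝ)|) - D * N * (Nq m q) * rho m q ≤ (Nq m q : ℝ) * |th (Am m) N i - p| := by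
      have : (Nq m q : ℝ) * |th (Am m) N i - p| = |(Nq m q : ℝ) * (th (Am m) N i - p)| := by
        rw [abs_mul, abs_of_nonneg (by positivity : (0 : ℝ) ≤ (Nq m q : ℝ))]
      rw [this, key]
      have h3 := abs_sub_abs_le_abs_sub (D * (h : ℝ) - ((p * (Nq m q : ℤ) : ℤ) : ℝ)) (D * N * (Nq m q) * rho m q)
      have h4 : |D * N * (Nq m q) * rho m q| = D * N * (Nq m q) * rho m q := by
        apply abs_of_nonneg
        have := D_pos
        positivity
      rw [h4] at h3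
      linarith
    have e3 : 1 / (5 * ((N : ℝ) * (Nq m q : ℝ))) ≤ 1 / (5 * |(h : ℝ)|) := by
      apply one_div_le_one_div_of_le
      · positivity
      · linarith
    have hqsR : 50 * (N : ℝ) ^ 2 * (Nq m q : ℝ) ^ 2 ≤ (5 : ℝ) ^ f m (q + 1) := by
      exact_mod_cast hqs
    have e4 : rho m q ≤ 5 / 4 * (50 * (N : ℝ) ^ 2 * (Nq m q : ℝ) ^ 2)⁻¹ := by
      refine le_trans r2 ?_
      have : ((5 : ℝ) ^ f m (q + 1))⁻¹ ≤ (50 * (N : ℝ) ^ 2 * (Nq m q : ℝ) ^ 2)⁻¹ :=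
        inv_anti₀ (by positivity) hqsR
      linarith
    have e5 : D * N * (Nq m q) * rho m q ≤ 1 / (10 * ((N : ℝ) * (Nq m q : ℝ))) := by
      have hDl := D_lt
      have hD0 := D_pos
      calc D * N * (Nq m q) * rho m q
          ≤ D * N * (Nq m q) * (5 / 4 * (50 * (N : ℝ) ^ 2 * (Nq m q : ℝ) ^ 2)⁻¹) := by
            gcongr
        _ = D * (5 / 200) * (1 / ((N : ℝ) * (Nq m q : ℝ))) := by
            field_simp
            norm_num
        _ ≤ (1 / 10) * (1 / ((N : ℝ) * (Nq m q : ℝ))) := by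
            apply mul_le_mul_of_nonneg_right _ (by positivity)
            linarith
        _ = _ := by
            field_simp
    have e6 : 1 / (10 * (N : ℝ) * (Nq m q : ℝ) ^ 2) ≤ |th (Am m) N i - p| := by
      have h5 : 1 / (5 * ((N : ℝ) * (Nq m q : ℝ))) = 2 * (1 / (10 * ((N : ℝ) * (Nq m q : ℝ)))) := by
        field_simp
        norm_num
      have h6 : 1 / (10 * ((N : ℝ) * (Nq m q : ℝ))) ≤ (Nq m q : ℝ) * |th (Am m) N i - p| := by
        linarith
      have h7 : 1 / (10 * (N : ℝ) * (Nq m q : ℝ) ^ 2) = (1 / (10 * ((N : ℝ) * (Nq m q : ℝ)))) / (Nq m q : ℝ) := by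
        field_simp
      rw [h7, div_le_iff₀ (by positivity)]
      linarith
    refine le_trans ?_ e6
    -- Nq ≤ C N^4
    have e7 : (Nq m q : ℝ) ≤ C * (N : ℝ) ^ 4 := by
      rcases Nat.eq_zero_or_pos q with h8 | h8
      · have : (Nq m q : ℝ) = (5 : ℝ) ^ f m 0 := by
          rw [h8]; unfold Nq; push_cast; rfl
        rw [this]
        have : (1 : ℝ) ≤ (N : ℝ) ^ 4 := one_le_pow₀ hNR
        nlinarith
      · obtain ⟨r, hr⟩ : ∃ r, q = r + 1 := ⟨q - 1, by omega⟩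
        have h9 := hqm r (by omega)
        obtain ⟨_, _, _, _, _, f4r, _⟩ := hq r
        rw [← hr] at h9 f4r
        have h10 : (Nq m r : ℝ) ^ 4 ≤ (Nq m q : ℝ) := by
          have : (Nq m r) ^ 4 ≤ Nq m q := by
            unfold Nq
            rw [← pow_mul]
            exact Nat.pow_le_pow_right (by norm_num) (by omega)
          exact_mod_cast this
        have h11 : (Nq m q : ℝ) < 50 * (N : ℝ) ^ 2 * (Nq m r : ℝ) ^ 2 := by
          have : Nq m q < 50 * N ^ 2 * (Nq m r) ^ 2 := by unfold Nq at h9 ⊢; exact h9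
          exact_mod_cast this
        have h12 : (Nq m q : ℝ) ^ 2 ≤ 2500 * (N : ℝ) ^ 4 * (Nq m q : ℝ) := by
          calc (Nq m q : ℝ) ^ 2 ≤ (50 * (N : ℝ) ^ 2 * (Nq m r : ℝ) ^ 2) ^ 2 := by
                gcongr
            _ = 2500 * (N : ℝ) ^ 4 * (Nq m r : ℝ) ^ 4 := by ring
            _ ≤ 2500 * (N : ℝ) ^ 4 * (Nq m q : ℝ) := by gcongr
        have h13 : (Nq m q : ℝ) ≤ 2500 * (N : ℝ) ^ 4 := by
          have h14 : (Nq m q : ℝ) * (Nq m q : ℝ) ≤ (2500 * (N : ℝ) ^ 4) * (Nq m q : ℝ) := by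
            rw [← sq]; exact h12
          exact le_of_mul_le_mul_right h14 (by positivity)
        calc (Nq m q : ℝ) ≤ 2500 * (N : ℝ) ^ 4 := h13
          _ ≤ C * (N : ℝ) ^ 4 := by gcongr
    rw [div_div]
    apply one_div_le_one_div_of_le (by positivity)
    calc 10 * (N : ℝ) * (Nq m q : ℝ) ^ 2 ≤ 10 * (N : ℝ) * (C * (N : ℝ) ^ 4) ^ 2 := by gcongr
      _ = 10 * C ^ 2 * (N : ℝ) ^ 9 := by ring

end Pool.Agent.Run7.h890.HRT.DIO
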